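import Pool.Agent.H63.WT.TB

/-!
# Row LIN (board wit_modules): symbols near infinity
-/

set_option autoImplicit false

open Polynomial Matrix Pool.Agent.H63.WT

namespace Pool.Agent.H29.WT

theorem cop_of_dvd {F : Type} [Field F] {R a b : F[X]} (h : R ∣ a - b) (hb : IsCoprime R b) :
    IsCoprime R a := by
  obtain ⟨k, hk⟩ := h
  have : a = b + k * R := by linear_combination hk
  rw [this]
  exact (IsCoprime.add_mul_right_right_iff).2 hb

theorem pf_LIN (hSQP : T_SQP) (hRMB : T_RMB) (hSYC : T_SYC) (hSSQ : T_SSQ) (hGDT : T_GDT)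
    (hLAL : T_LAL) : T_LIN := by
  intro F _ _ _ _ R M hR hsep hRM hsq
  by_cases h0 : R.natDegree = 0
  · have hR1 : R = 1 := hR.natDegree_eq_zero.1 h0
    refine ⟨0, fun t _ => ⟨by rw [hR1]; simp, ?_⟩⟩
    have hS : ∀ h h' : F[X], S R h = S R h' := by
      intro h h'
      unfold S
      congr 1
      funext i
      exact absurd i.2 (by omega)
    unfold sy
    rw [hS M 1, hS (X - C t) 1, hS (M * (X - C t)) 1]
    abel
  obtain ⟨ε, hε, hz⟩ := hSQP F R hR
  obtain ⟨K, hK, hb⟩ := hRMB F R 1 1 hR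
  refine ⟨K / ε, fun t ht => ?_⟩
  have hKε : 0 < K / ε := div_pos hK hε
  have ht0 : 0 < ‖t‖ := hKε.trans ht
  have htne : t ≠ 0 := norm_pos_iff.1 ht0
  obtain ⟨h, hh⟩ : ∃ h : F[X], h = C (-t⁻¹) * X := ⟨_, rfl⟩
  have hcoef : ∀ i, ‖((1 * h) %ₘ R).coeff i‖ ≤ K * ‖t‖⁻¹ := by
    refine hb h ‖t‖⁻¹ ?_ (inv_pos.2 ht0) fun i => ?_
    · rw [hh]
      exact (natDegree_C_mul_le _ _).trans natDegree_X_le
    · rw [hh, coeff_C_mul, coeff_X]
      split_ifs
      · rw [mul_one, norm_neg, norm_inv]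
      · rw [mul_zero, norm_zero]
        exact (inv_pos.2 ht0).le
  obtain ⟨z, hz1, hz2⟩ := hz ((1 * h) %ₘ R) (natDegree_modByMonic_lt _ hR (by
      intro h1
      rw [h1, natDegree_one] at h0
      exact h0 rfl)) (fun i => lt_of_le_of_lt (hcoef i) (by
      rw [← div_eq_mul_inv, div_lt_iff₀ ht0]
      rw [div_lt_iff₀ hε] at ht
      linarith))
  have hdiv : R ∣ (1 + h) - z ^ 2 := by
    have h1 : R ∣ h - (1 * h) %ₘ R := by
      rw [one_mul]
      refine ⟨h /ₘ R, ?_⟩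
      have := modByMonic_add_div h R
      linear_combination -this
    have h2 := dvd_add h1 hz2
    have h3 : h - (1 * h) %ₘ R + (1 + (1 * h) %ₘ R - z ^ 2) = (1 + h) - z ^ 2 := by ring
    rwa [h3] at h2
  have hX : X - C t = C (-t) * (1 + h) := by
    rw [hh]
    have h1 : C (-t) * (1 + C (-t⁻¹) * X) = C (-t) + C ((-t) * (-t⁻¹)) * X := by
      rw [C_mul]; ring
    rw [h1, neg_mul_neg, mul_inv_cancel₀ htne, C_1, one_mul, C_neg]
    ring
  have hd1 : R ∣ (X - C t) - C (-t) * z ^ 2 := by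
    have h1 : (X - C t) - C (-t) * z ^ 2 = C (-t) * ((1 + h) - z ^ 2) := by rw [hX]; ring
    rw [h1]
    exact dvd_mul_of_dvd_right hdiv _
  have hCt : IsCoprime R (C (-t)) :=
    ⟨0, C (-t)⁻¹, by
      rw [zero_mul, zero_add, ← C_mul, inv_mul_cancel₀ (neg_ne_zero.2 htne), C_1]⟩
  have hcop : IsCoprime R (X - C t) :=
    cop_of_dvd hd1 (hCt.mul_right (hz1.pow_right))
  have h2 : (2 : F) ≠ 0 := two_ne_zero
  have hS1 : S R (X - C t) = S R (C (-t)) := (hSSQ F h2 R hR).1 _ _ z hcop hCt hd1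
  have hS2 : S R (M * (X - C t)) = S R (M * C (-t)) := by
    refine (hSSQ F h2 R hR).1 _ _ z (hRM.mul_right hcop) (hRM.mul_right hCt) ?_
    have h1 : M * (X - C t) - M * C (-t) * z ^ 2 = M * ((X - C t) - C (-t) * z ^ 2) := by ring
    rw [h1]
    exact dvd_mul_of_dvd_right hd1 _
  constructor
  · intro hev
    have h3 : (X - C t) ∣ R := dvd_iff_isRoot.2 hev
    have h4 : IsUnit (X - C t) := hcop.isUnit_of_dvd' h3 dvd_rfl
    exact (irreducible_X_sub_C t).not_isUnit h4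
  · have h5 : sy R M (X - C t) = sy R M (C (-t)) := by
      unfold sy
      rw [hS1, hS2]
    rw [h5]
    exact (hSYC F (hLAL F) R M hR hsep hRM).1 (-t) (neg_ne_zero.2 htne) hsq

end Pool.Agent.H29.WT
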