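import Pool.Agent.H63.WT.TC

/-!
# Row ODD (board wit_modules): an odd point with `c₁ + c₂ = 0`
-/

set_option autoImplicit false

open Polynomial Matrix Pool.Agent.H63.WT

namespace Pool.Agent.H29.WT

/-- a monic polynomial of odd degree has a monic irreducible factor of odd degree -/
theorem odd_factor {F : Type} [Field F] (n : ℕ) : ∀ R : F[X], R.natDegree ≤ n → R.Monic →
    Odd R.natDegree → ∃ p : F[X], p.Monic ∧ Irreducible p ∧ p ∣ R ∧ Odd p.natDegree := by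
  induction n with
  | zero =>
    intro R hR _ ho
    obtain ⟨k, hk⟩ := ho
    omega
  | succ n ih =>
    intro R hR hm ho
    have hnu : ¬ IsUnit R := by
      intro hu
      have := natDegree_eq_zero_of_isUnit hu
      obtain ⟨k, hk⟩ := ho
      omega
    obtain ⟨q, hq1, hq2, hq3⟩ := exists_monic_irreducible_factor R hnu
    by_cases hqo : Odd q.natDegree
    · exact ⟨q, hq1, hq2, hq3, hqo⟩
    obtain ⟨R', hR'⟩ := hq3
    have hm' : R'.Monic := hq1.of_mul_monic_left (hR' ▸ hm)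
    have hdeg : R.natDegree = q.natDegree + R'.natDegree := by
      rw [hR', hq1.natDegree_mul hm']
    have hqpos : 0 < q.natDegree := hq2.natDegree_pos
    have ho' : Odd R'.natDegree := by
      rw [hdeg] at ho
      by_contra hc
      exact hqo ((Nat.odd_add.1 ho).2 (Nat.not_odd_iff_even.1 hc))
    obtain ⟨p, h1, h2, h3, h4⟩ := ih R' (by omega) hm' ho'
    exact ⟨p, h1, h2, h3.trans (by rw [hR']; exact dvd_mul_left _ _), h4⟩

theorem pf_ODD (hSUM : T_SUM) (hODP : T_ODP) (hNRP : T_NRP) (hCAD : T_CAD) (hPTB : T_PTB)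
    (hLAL : T_LAL) (_hIV : T_IV) (hEU9 : T_EU9) (hI2A : T_I2A) : Pool.Agent.H63.WT.T_ODD := by
  intro F _ _ _ _ m M0 P1 P2 R1 R2 U1 U2 D
  have h2 : (2 : F) ≠ 0 := two_ne_zero
  by_cases hpt : ∃ t : F, IsSquare (m * eval t M0)
  · obtain ⟨t, -, -, ht1, -, ht2⟩ := hSUM F m M0 P1 P2 R1 R2 U1 U2 D hpt ∅
    refine ⟨X - C t, monic_X_sub_C t, irreducible_X_sub_C t, by rw [natDegree_X_sub_C]; simp,
      ?_, ht2⟩
    refine ((irreducible_X_sub_C t).coprime_iff_not_dvd).2 fun h => ht1 ?_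
    exact dvd_iff_isRoot.1 h
  have hm : ¬ IsSquare m := by
    intro hm
    obtain ⟨t, -, -, ht⟩ := (hPTB F m M0 D.m0 D.mon0 D.sep0 D.deg0).2 hm 0
    exact hpt ⟨t, ht⟩
  have heven : ∀ T : F[X], T.Monic → SqM T (C m * M0) → Even T.natDegree := by
    intro T hT hs
    by_contra hc
    rcases hODP F h2 m M0 T D.m0 D.mon0 D.sep0 D.deg0 hT hs (Nat.not_even_iff_odd.1 hc) with h | h
    · exact hm h
    · exact hpt h
  have hU2 := heven U2 D.monU2 D.sq2
  have hR2 : Odd R2.natDegree := by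
    have h1 := D.odd2
    rw [D.fac2, D.monR2.natDegree_mul D.monU2] at h1
    exact (Nat.odd_add.1 h1).2 hU2
  obtain ⟨p, hp1, hp2, hp3, hp4⟩ := odd_factor _ R2 le_rfl D.monR2 hR2
  have hLA := hLAL F
  have hcopM : IsCoprime (P1 * P2) (C m * M0) := by
    refine IsCoprime.mul_right ⟨0, C m⁻¹, ?_⟩ D.cop
    rw [zero_mul, zero_add, ← C_mul, inv_mul_cancel₀ D.m0, C_1]
  have hRP1 : R1 ∣ P1 := by rw [D.fac1]; exact dvd_mul_right _ _
  have hRP2 : R2 ∣ P2 := by rw [D.fac2]; exact dvd_mul_right _ _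
  have hRR : R2 * R1 ∣ P1 * P2 := by
    rw [mul_comm R2 R1]
    exact mul_dvd_mul hRP1 hRP2
  have hcop12 : IsCoprime P1 P2 := D.sep.isCoprime
  have hR1p : IsCoprime R1 p :=
    (hcop12.of_isCoprime_of_dvd_left hRP1).of_isCoprime_of_dvd_right (hp3.trans hRP2)
  have hcc := (hCAD F hLA P1 P2 R1 U1 (C m * M0) D.mon1 D.mon2 D.monR1 D.monU1 D.fac1 D.sep
    hcopM D.sq1 D.nn1).2.1 p hR1p
  have hqc : I2 (qc P2 P1 (C m * M0)) :=
    ((hEU9 F h2).2.1 P2 P1 (C m * M0) D.mon2 hcop12.symm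
      (hcopM.of_isCoprime_of_dvd_left (dvd_mul_left _ _))).2 D.nn2
  have hns : ∀ n : ℕ, I2 (n • qc P2 P1 (C m * M0)) := by
    intro n
    induction n with
    | zero => rw [zero_nsmul]; exact (hI2A F h2).1
    | succ n ih => rw [succ_nsmul]; exact (hI2A F h2).2.1 _ _ ih hqc
  obtain ⟨T, hT1, hT2, hT3, hT4, -, hT6, hT7⟩ := hNRP F R2 R1 (P1 * P2) (C m * M0) p
    (-(cc P1 P2 R1 (C m * M0) p + p.natDegree • qc P2 P1 (C m * M0))) D.monR2 D.monR1
    (D.mon1.mul D.mon2) (D.sep.of_dvd hRR) (hcopM.of_isCoprime_of_dvd_left hRR)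
    (D.mon1.mul D.mon2).ne_zero hp1 hp2 hp3 (D.ram2 p hp2 hp3)
    ((hI2A F h2).2.2 _ ((hI2A F h2).2.1 _ _ hcc (hns _)))
  refine ⟨T, hT1, hT2, by rw [hT3]; exact hp4, hT4, ?_⟩
  unfold cc
  unfold cc at hT6
  rw [hT6, hT7, hT3]
  abel

end Pool.Agent.H29.WT
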